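import Pool.Agent.helper61.CSW.Base
import Pool.Agent.helper61.CSW.Exports

/-!
# Project v3: (MP_af9036_an), part E: the end game (pure complex analysis of the limit)

Paper: /team-store/MP_af9036_V3_notes.md (helper10), sections 6.3, 9, 10, quoted as [paper, (x.y)]. This part does not depend on the
files of mp:. File `Pool/Agent/<seat>/V3/XX.lean`: `import Pool.Agent.helper54.V3.SpecE`, `set_option autoImplicit false`,
`namespace V3`, `open Complex Metric Set Filter Topology MeasureTheory`, `theorem XX (h : YY_stmt) ... : XX_stmt`.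
Any other statement of this file may be a hypothesis (no circles). Auxiliary lemmas are prefixed `XX_`.
-/

set_option autoImplicit false

open Complex Metric Set Filter Topology MeasureTheory

noncomputable section

open CSS (SE)

namespace YV3

/-! ## The group -/

/-! ## General facts -/

/-! ## Case (F): `P` finite -/

/-! ## Case (Z): `P = ℤ t`. Notation `L = 2πi/t`, `y = exp (L x)`. -/

/-! ## The identity on closed chains [paper, (10.5)] -/

/-- CHF: no winding around zeros of `F` [paper, (10.5)].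
PROOF. `F(a) = 0`: `(1 - F)^M - 1` vanishes at `a`, so it is `(z - a)` times an entire function (`dslope`); entire functions have primitives (see CHE), so `chi (1/(z-a)) = chi ((1-F)^M/(z-a))` for every `M`, and `‖(1-F)^M‖ ≤ 2^{-M}` on the curves, `1/(z-a)` is bounded on the compact curves
(`a` is not on them, since `‖F a - 1‖ = 1`): the right side tends to `0`. -/
def CHF_stmt : Prop := ∀ (m : ℕ) (γ : ℕ → ℝ → ℂ) (F : ℂ → ℂ) (a : ℂ), Chain m γ → Differentiable ℂ F →
  (∀ j < m, ∀ s ∈ Icc (0 : ℝ) 1, ‖F (γ j s) - 1‖ ≤ 1 / 2) → F a = 0 →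
  chi m γ (fun z => 1 / (z - a)) = 0

/-- CHE: integrals of functions that are holomorphic on a big disc along closed chains vanish.
PROOF. Primitive on the disc (`Complex.IsExactOn` / `DifferentiableOn.isExactOn_ball` or power series), fundamental theorem on each curve, telescoping (as V3.CHP, helper55/V3/CHP.lean). -/
def CHE_stmt : Prop := ∀ (m : ℕ) (γ : ℕ → ℝ → ℂ) (p : ℂ → ℂ) (R : ℝ), Chain m γ → DifferentiableOn ℂ p (ball 0 R) →
  (∀ j < m, ∀ s ∈ Icc (0 : ℝ) 1, γ j s ∈ ball (0 : ℂ) R) → chi m γ p = 0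

/-- CHI: the identity [paper, (10.5)] for entire functions.
PROOF. The curves are in a disc `ball 0 R`, `Z` too; `v` is entire and not zero, so it has finitely many zeros in `closedBall 0 R`; `v'/v = ∑_{zeros a in the disc, with multiplicity} 1/(z - a) + h`, `h` holomorphic on `ball 0 R` (divide `v` by the polynomial with these zeros;
`AnalyticAt` orders; the quotient has no zeros in the disc). The zeros are the simple zeros `a ∈ Z` and others, which are zeros of `F` (CHF: they contribute `0`). The hypothesis says `w z = κ ∑_{a ∈ Z} 1/(z-a) + Q(z)` off `Z`, `Q` entire (CHE). So both sides are `κ ∑_{a∈Z} chi(1/(z-a))`. (Points of `Z` are not on the curves: `v ≠ 0` there.) -/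
def CHI_stmt : Prop := ∀ (m : ℕ) (γ : ℕ → ℝ → ℂ) (F v Q : ℂ → ℂ) (Z : Finset ℂ) (κ : ℂ) (w : ℂ → ℂ),
  Chain m γ → Differentiable ℂ F → Differentiable ℂ v → Differentiable ℂ Q → (∃ x, v x ≠ 0) →
  (∀ j < m, ∀ s ∈ Icc (0 : ℝ) 1, ‖F (γ j s) - 1‖ ≤ 1 / 2 ∧ v (γ j s) ≠ 0) →
  (∀ a ∈ Z, v a = 0 ∧ deriv v a ≠ 0) → (∀ a ∉ Z, v a = 0 → F a = 0) →
  (∀ z ∉ Z, w z = κ * ∑ a ∈ Z, 1 / (z - a) + Q z) →
  chi m γ w = κ * chi m γ (fun z => deriv v z / v z)

end YV3
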