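import Pool.Agent.helper61.CSW.Base
import Pool.Agent.helper61.CSW.V3.SpecE
import Pool.Agent.helper61.CSW.Exports

/-!
Project ef (V3 copy), module CHE: integrals of functions that are holomorphic on a big disc along
closed chains vanish.
-/

set_option autoImplicit false

open Complex Metric Set Filter Topology MeasureTheory

noncomputable section

namespace YV3

theorem CHE : CHE_stmt := by
  intro m γ p R hC hp hb
  obtain ⟨q, hq⟩ := hp.isExactOn_ball
  have key : ∀ j < m, ∫ s in (0 : ℝ)..1, p (γ j s) * derivWithin (γ j) (Icc 0 1) s =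
      q (γ (j + 1) 0) - q (γ j 0) := by
    intro j hj
    rw [← hC.cl j hj]
    have hγ := hC.c1 j hj
    have hU : UniqueDiffOn ℝ (Icc (0 : ℝ) 1) := uniqueDiffOn_Icc zero_lt_one
    have hγc : ContinuousOn (γ j) (Icc 0 1) := hγ.continuousOn
    have hd : ContinuousOn (derivWithin (γ j) (Icc 0 1)) (Icc 0 1) :=
      hγ.continuousOn_derivWithin hU le_rfl
    have hqc : ContinuousOn q (ball (0 : ℂ) R) := fun z hz =>
      (hq z hz).continuousAt.continuousWithinAt
    refine intervalIntegral.integral_eq_sub_of_hasDeriv_right_of_le zero_le_one ?_ ?_ ?_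
      (f := fun s => q (γ j s))
    · exact hqc.comp hγc (fun s hs => hb j hj s hs)
    · intro s hs
      have hs' : s ∈ Icc (0 : ℝ) 1 := Ioo_subset_Icc_self hs
      have h1 : HasDerivWithinAt (γ j) (derivWithin (γ j) (Icc 0 1) s) (Icc 0 1) s :=
        ((hγ.differentiableOn one_ne_zero) s hs').hasDerivWithinAt
      have h2 : HasDerivAt (γ j) (derivWithin (γ j) (Icc 0 1) s) s :=
        h1.hasDerivAt (Icc_mem_nhds hs.1 hs.2)
      have h3 : HasDerivAt q (p (γ j s)) (γ j s) := hq _ (hb j hj s hs')
      exact (h3.comp s h2).hasDerivWithinAt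
    · apply ContinuousOn.intervalIntegrable_of_Icc zero_le_one
      exact (hp.continuousOn.comp hγc (fun s hs => hb j hj s hs)).mul hd
  unfold chi
  rw [Finset.sum_congr rfl (fun j hj => key j (Finset.mem_range.1 hj)),
    Finset.sum_range_sub (fun j => q (γ j 0)), hC.per, sub_self]

end YV3
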