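import Pool.Agent.helper61.CSW.Base
import Pool.Agent.helper61.CSW.V3.SpecE
import Pool.Agent.helper61.CSW.Exports

/-!
Project ew: (MP_70a088_an), module CHI: the identity on closed chains for entire functions; finitely many
zeros in a disc. (helper33)
-/

set_option autoImplicit false

open Complex Metric Set Filter Topology MeasureTheory

noncomputable section

open CSS (SE)

namespace YV3

/-- an entire function divided by its zero at one point. -/
theorem CHI_fac1 (v : ℂ → ℂ) (hv : Differentiable ℂ v) (hx : ∃ x, v x ≠ 0) (a : ℂ) :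
    ∃ (n : ℕ) (u : ℂ → ℂ), Differentiable ℂ u ∧ u a ≠ 0 ∧ ∀ z, v z = (z - a) ^ n * u z := by
  have han : AnalyticAt ℂ v a := hv.analyticAt a
  have hne : ¬ ∀ᶠ z in 𝓝 a, v z = 0 := by
    intro h
    obtain ⟨x, hx⟩ := hx
    apply hx
    have h1 : v = fun _ => (0 : ℂ) := by
      refine AnalyticOnNhd.eq_of_frequently_eq (z₀ := a) (fun z _ => hv.analyticAt z)
        (fun z _ => analyticAt_const) ?_
      exact (h.filter_mono nhdsWithin_le_nhds).frequently
    rw [h1]
  obtain ⟨n, g, hg, hga, hev⟩ := han.exists_eventuallyEq_pow_smul_nonzero_iff.2 hne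
  have hev' : ∀ᶠ z in 𝓝 a, v z = (z - a) ^ n * g z := by simpa [smul_eq_mul] using hev
  refine ⟨n, fun z => if z = a then g a else v z / (z - a) ^ n, ?_, by simpa using hga, ?_⟩
  · intro z
    by_cases hz : z = a
    · subst hz
      have h1 : (fun w => if w = z then g z else v w / (w - z) ^ n) =ᶠ[𝓝 z] g := by
        filter_upwards [hev'] with w hw
        by_cases hwz : w = z
        · simp [hwz]
        · have h2 : (w - z) ^ n ≠ 0 := pow_ne_zero _ (sub_ne_zero.2 hwz)
          simp only [hwz, if_false]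
          rw [hw]
          field_simp
      exact h1.differentiableAt_iff.2 hg.differentiableAt
    · have h1 : (fun w => if w = a then g a else v w / (w - a) ^ n) =ᶠ[𝓝 z]
          fun w => v w / (w - a) ^ n := by
        filter_upwards [isOpen_ne.mem_nhds hz] with w hw
        have hw' : w ≠ a := hw
        simp [hw']
      refine h1.differentiableAt_iff.2 ?_
      refine (hv z).div ?_ (pow_ne_zero _ (sub_ne_zero.2 hz))
      exact ((differentiableAt_id.sub_const a).pow n)
  · intro z
    by_cases hz : z = a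
    · subst hz
      simp only [if_true]
      exact hev'.self_of_nhds
    · have h2 : (z - a) ^ n ≠ 0 := pow_ne_zero _ (sub_ne_zero.2 hz)
      simp only [hz, if_false]
      field_simp

/-- an entire function divided by its zeros on a finite set. -/
theorem CHI_fac (v : ℂ → ℂ) (hv : Differentiable ℂ v) (hx : ∃ x, v x ≠ 0) (S : Finset ℂ) :
    ∃ (n : ℂ → ℕ) (u : ℂ → ℂ), Differentiable ℂ u ∧ (∀ a ∈ S, u a ≠ 0) ∧
      ∀ z, v z = (∏ a ∈ S, (z - a) ^ n a) * u z := by
  induction S using Finset.induction_on with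
  | empty => exact ⟨fun _ => 0, v, hv, by simp, by simp⟩
  | insert b S hb ih =>
    obtain ⟨n, u, hu, hS, hvu⟩ := ih
    have hux : ∃ x, u x ≠ 0 := by
      obtain ⟨x, hx⟩ := hx
      refine ⟨x, fun h => hx ?_⟩
      rw [hvu x, h, mul_zero]
    obtain ⟨k, u', hu', hb', huu⟩ := CHI_fac1 u hu hux b
    refine ⟨Function.update n b k, u', hu', ?_, ?_⟩
    · intro a ha
      rcases Finset.mem_insert.1 ha with h | h
      · rw [h]; exact hb'
      · intro h0
        apply hS a h
        rw [huu a, h0, mul_zero]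
    · intro z
      rw [hvu z, huu z, Finset.prod_insert hb, Function.update_self]
      have h1 : ∏ a ∈ S, (z - a) ^ Function.update n b k a = ∏ a ∈ S, (z - a) ^ n a := by
        refine Finset.prod_congr rfl fun a ha => ?_
        rw [Function.update_of_ne]
        rintro rfl
        exact hb ha
      rw [h1]
      ring

/-- finitely many zeros in a closed ball. -/
theorem CHI_fin (v : ℂ → ℂ) (hv : Differentiable ℂ v) (hx : ∃ x, v x ≠ 0) (R : ℝ) :
    {z | z ∈ closedBall (0 : ℂ) R ∧ v z = 0}.Finite := by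
  by_contra hinf
  obtain ⟨x, _, hacc⟩ := Set.Infinite.exists_accPt_of_subset_isCompact hinf
    (isCompact_closedBall (0 : ℂ) R) (fun z hz => hz.1)
  rw [accPt_iff_frequently_nhdsNE] at hacc
  obtain ⟨y, hy⟩ := hx
  apply hy
  have h1 : v = fun _ => (0 : ℂ) := by
    refine AnalyticOnNhd.eq_of_frequently_eq (z₀ := x) (fun z _ => hv.analyticAt z)
      (fun z _ => analyticAt_const) ?_
    exact hacc.mono fun z hz => hz.2
  rw [h1]

theorem CHI_logDeriv_sub (a z : ℂ) : logDeriv (fun w => w - a) z = 1 / (z - a) := by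
  rw [logDeriv_apply]
  simp

theorem CHI (hCHE : CHE_stmt) (hCHF : CHF_stmt) : CHI_stmt := by
  intro m γ F v Q Z κ w hγ hF hv hQ hx hcur hZ1 hZ2 hw
  have hγc : ∀ j < m, ContinuousOn (γ j) (Icc 0 1) := fun j hj => (hγ.c1 j hj).continuousOn
  -- points on the curves are no zeros of v
  have hne : ∀ a : ℂ, v a = 0 → ∀ j < m, ∀ s ∈ Icc (0 : ℝ) 1, γ j s - a ≠ 0 := by
    intro a ha j hj s hs h0
    apply (hcur j hj s hs).2
    rw [sub_eq_zero.1 h0, ha]
  have hcont : ∀ a : ℂ, v a = 0 → ∀ j < m,
      ContinuousOn (fun s => 1 / (γ j s - a)) (Icc 0 1) := by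
    intro a ha j hj
    exact continuousOn_const.div ((hγc j hj).sub continuousOn_const) (hne a ha j hj)
  have hZv : ∀ a ∈ Z, v a = 0 := fun a ha => (hZ1 a ha).1
  -- a big ball
  have hbd : Bornology.IsBounded ((⋃ j ∈ Finset.range m, γ j '' Icc (0 : ℝ) 1) ∪ (Z : Set ℂ)) := by
    refine Bornology.IsBounded.union ?_ Z.finite_toSet.isBounded
    refine (Bornology.isBounded_biUnion_finset _).2 fun j hj => ?_
    exact (isCompact_Icc.image_of_continuousOn (hγc j (Finset.mem_range.1 hj))).isBounded
  obtain ⟨R, hR⟩ := hbd.subset_ball (0 : ℂ)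
  have hRγ : ∀ j < m, ∀ s ∈ Icc (0 : ℝ) 1, γ j s ∈ ball (0 : ℂ) R := by
    intro j hj s hs
    apply hR
    left
    simp only [mem_iUnion]
    exact ⟨j, Finset.mem_range.2 hj, s, hs, rfl⟩
  have hRZ : ∀ a ∈ Z, a ∈ ball (0 : ℂ) R := fun a ha => hR (Or.inr ha)
  -- the zeros in the ball
  have hfin := CHI_fin v hv hx R
  obtain ⟨n, u, hu, hSu, hvu⟩ := CHI_fac v hv hx hfin.toFinset
  have hmemS : ∀ a, a ∈ hfin.toFinset ↔ a ∈ closedBall (0 : ℂ) R ∧ v a = 0 := by
    intro a
    rw [Set.Finite.mem_toFinset]
    rfl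
  have hune : ∀ z ∈ ball (0 : ℂ) R, u z ≠ 0 := by
    intro z hz h0
    have h1 : v z = 0 := by rw [hvu z, h0, mul_zero]
    exact hSu z ((hmemS z).2 ⟨ball_subset_closedBall hz, h1⟩) h0
  have hZS : Z ⊆ hfin.toFinset := by
    intro a ha
    exact (hmemS a).2 ⟨ball_subset_closedBall (hRZ a ha), hZv a ha⟩
  -- simple zeros
  have hn1 : ∀ a ∈ Z, n a = 1 := by
    intro a ha
    have haS := hZS ha
    have hva : ∀ z, v z = (z - a) ^ n a *
        ((∏ b ∈ hfin.toFinset.erase a, (z - b) ^ n b) * u z) := by
      intro z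
      rw [hvu z, ← Finset.mul_prod_erase _ _ haS, mul_assoc]
    have hne0 : n a ≠ 0 := by
      intro h0
      have h1 := hvu a
      rw [hZv a ha] at h1
      rcases mul_eq_zero.1 h1.symm with h2 | h2
      · rw [Finset.prod_eq_zero_iff] at h2
        obtain ⟨b, hb, hb2⟩ := h2
        by_cases hnb : n b = 0
        · rw [hnb, pow_zero] at hb2
          exact one_ne_zero hb2
        · have h4 : a - b = 0 := by
            exact (pow_eq_zero_iff hnb).1 hb2
          have h5 : a = b := sub_eq_zero.1 h4
          rw [← h5] at hnb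
          exact hnb h0
      · exact hSu a haS h2
    by_contra hn
    have hge : 2 ≤ n a := by omega
    obtain ⟨k, hk⟩ := Nat.exists_eq_add_of_le hge
    apply (hZ1 a ha).2
    have hW : DifferentiableAt ℂ
        (fun z => (∏ b ∈ hfin.toFinset.erase a, (z - b) ^ n b) * u z) a := by
      refine DifferentiableAt.mul ?_ (hu a)
      refine DifferentiableAt.fun_finsetProd fun b _ => ?_
      exact (differentiableAt_id.sub_const b).pow _
    have hP : HasDerivAt (fun z : ℂ => (z - a) ^ n a) 0 a := by
      have h1 := ((hasDerivAt_id a).sub_const a).pow (n a)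
      have h2 : (↑(n a) * (id a - a) ^ (n a - 1) * 1 : ℂ) = 0 := by
        have h3 : n a - 1 = k + 1 := by omega
        rw [h3]
        simp
      rw [h2] at h1
      exact h1
    have hD := hP.mul hW.hasDerivAt
    have h0 : (fun z => (z - a) ^ n a *
        ((∏ b ∈ hfin.toFinset.erase a, (z - b) ^ n b) * u z)) = v := by
      funext z
      exact (hva z).symm
    have h4 : ((fun z : ℂ => (z - a) ^ n a) *
        fun z => (∏ b ∈ hfin.toFinset.erase a, (z - b) ^ n b) * u z) = v := by
      funext z
      exact (hva z).symm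
    rw [h4] at hD
    rw [hD.deriv]
    have h5 : n a ≠ 0 := hne0
    simp [h5]
  -- the left side
  have hL : chi m γ w = κ * ∑ a ∈ Z, chi m γ (fun z => 1 / (z - a)) := by
    rw [CHI_congr m γ w (fun z => κ * (∑ a ∈ Z, 1 / (z - a)) + Q z)]
    · rw [CHI_add m γ hγ (fun z => κ * (∑ a ∈ Z, 1 / (z - a))) (fun z => Q z), CHI_smul,
        CHI_sum m γ hγ Z (fun a z => 1 / (z - a)), hCHE m γ (fun z => Q z) R hγ
          hQ.differentiableOn hRγ, add_zero]
      · intro a ha j hj
        exact hcont a (hZv a ha) j hj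
      · intro j hj
        refine continuousOn_const.mul ?_
        exact continuousOn_finsetSum _ fun a ha => hcont a (hZv a ha) j hj
      · intro j hj
        exact hQ.continuous.comp_continuousOn (hγc j hj)
    · intro j hj s hs
      apply hw
      intro hmem
      exact (hcur j hj s hs).2 (hZv _ hmem)
  -- the right side
  have hS0 : ∀ a ∈ hfin.toFinset, v a = 0 := fun a ha => ((hmemS a).1 ha).2
  have hud : Differentiable ℂ (deriv u) := by
    intro z
    exact (hu.analyticAt z).deriv.differentiableAt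
  have hRt : chi m γ (fun z => deriv v z / v z) =
      ∑ a ∈ hfin.toFinset, (n a : ℂ) * chi m γ (fun z => 1 / (z - a)) := by
    rw [CHI_congr m γ (fun z => deriv v z / v z)
      (fun z => (∑ a ∈ hfin.toFinset, (n a : ℂ) * (1 / (z - a))) + deriv u z / u z)]
    · rw [CHI_add m γ hγ (fun z => ∑ a ∈ hfin.toFinset, (n a : ℂ) * (1 / (z - a)))
        (fun z => deriv u z / u z)]
      · rw [CHI_sum m γ hγ _ (fun a z => (n a : ℂ) * (1 / (z - a)))]
        · rw [hCHE m γ (fun z => deriv u z / u z) R hγ ?_ hRγ, add_zero]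
          · exact Finset.sum_congr rfl fun a _ => CHI_smul m γ _ _
          · exact hud.differentiableOn.div hu.differentiableOn hune
        · intro a ha j hj
          exact continuousOn_const.mul (hcont a (hS0 a ha) j hj)
      · intro j hj
        exact continuousOn_finsetSum _ fun a ha =>
          continuousOn_const.mul (hcont a (hS0 a ha) j hj)
      · intro j hj
        refine ContinuousOn.div ?_ ?_ fun s hs => hune _ (hRγ j hj s hs)
        · exact hud.continuous.comp_continuousOn (hγc j hj)
        · exact hu.continuous.comp_continuousOn (hγc j hj)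
    · intro j hj s hs
      have hvz : v (γ j s) ≠ 0 := (hcur j hj s hs).2
      have huz : u (γ j s) ≠ 0 := hune _ (hRγ j hj s hs)
      have hprod : (∏ a ∈ hfin.toFinset, (γ j s - a) ^ n a) ≠ 0 := by
        intro h0
        apply hvz
        rw [hvu, h0, zero_mul]
      have hfac : ∀ a ∈ hfin.toFinset, (γ j s - a) ^ n a ≠ 0 := by
        intro a ha
        exact pow_ne_zero _ (hne a (hS0 a ha) j hj s hs)
      have hvf : v = fun z => (∏ a ∈ hfin.toFinset, (z - a) ^ n a) * u z := funext hvu
      have hd1 : DifferentiableAt ℂ (fun z => ∏ a ∈ hfin.toFinset, (z - a) ^ n a) (γ j s) := by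
        refine DifferentiableAt.fun_finsetProd fun b _ => ?_
        exact (differentiableAt_id.sub_const b).pow _
      have h1 : logDeriv v (γ j s) = logDeriv (fun z => ∏ a ∈ hfin.toFinset, (z - a) ^ n a) (γ j s) +
          logDeriv u (γ j s) :=
        (congrArg (fun f => logDeriv f (γ j s)) hvf).trans
          (logDeriv_mul (γ j s) hprod huz hd1 (hu _))
      have h2 : logDeriv (fun z => ∏ a ∈ hfin.toFinset, (z - a) ^ n a) (γ j s) =
          ∑ a ∈ hfin.toFinset, logDeriv (fun z => (z - a) ^ n a) (γ j s) :=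
        logDeriv_prod hfac (fun a _ => (differentiableAt_id.sub_const a).pow _)
      rw [logDeriv_apply] at h1
      change deriv v (γ j s) / v (γ j s) = _
      rw [h1, h2, logDeriv_apply]
      congr 1
      refine Finset.sum_congr rfl fun a _ => ?_
      rw [logDeriv_fun_pow (f := fun z => z - a) (differentiableAt_id.sub_const a),
        CHI_logDeriv_sub]
  rw [hL, hRt]
  congr 1
  rw [← Finset.sum_subset hZS]
  · refine Finset.sum_congr rfl fun a ha => ?_
    rw [hn1 a ha, Nat.cast_one, one_mul]
  · intro a ha haZ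
    rw [hCHF m γ F a hγ hF (fun j hj s hs => (hcur j hj s hs).1) (hZ2 a haZ (hS0 a ha)), mul_zero]

end YV3
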