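import Pool.Agent.helper61.CSW.Base
import Pool.Agent.helper61.CSW.PP.SpecA
import Pool.Agent.helper61.CSW.V3.SpecE
import Pool.Agent.helper61.CSW.Exports

set_option autoImplicit false

open Complex Metric Set Filter Topology MeasureTheory MPS YV3

noncomputable section

open CSS (SE)

namespace YV3S

theorem GEX_dif (f : SE) (j : ℕ) : Differentiable ℂ ((fun w => f.eval w)^[j]) := by
  induction j with
  | zero => exact differentiable_id
  | succ j ih =>
    rw [Function.iterate_succ']
    exact f.differentiable.comp ih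

theorem GEX_succ (f : SE) (j : ℕ) : deriv ((fun w => f.eval w)^[j + 1]) =
    fun z => f.derivative.eval ((fun w => f.eval w)^[j] z) * deriv ((fun w => f.eval w)^[j]) z := by
  funext z
  have h1 : HasDerivAt ((fun w => f.eval w)^[j]) (deriv ((fun w => f.eval w)^[j]) z) z :=
    (GEX_dif f j z).hasDerivAt
  have h2 := (f.hasDerivAt ((fun w => f.eval w)^[j] z)).comp z h1
  rw [← Function.iterate_succ'] at h2
  rw [h2.deriv]

theorem GEX_succ2 (f : SE) (j : ℕ) (z : ℂ) : deriv (deriv ((fun w => f.eval w)^[j + 1])) z =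
    f.derivative.derivative.eval ((fun w => f.eval w)^[j] z) * deriv ((fun w => f.eval w)^[j]) z ^ 2 +
      f.derivative.eval ((fun w => f.eval w)^[j] z) * deriv (deriv ((fun w => f.eval w)^[j])) z := by
  rw [GEX_succ]
  have h1 : HasDerivAt ((fun w => f.eval w)^[j]) (deriv ((fun w => f.eval w)^[j]) z) z :=
    (GEX_dif f j z).hasDerivAt
  have h2 : DifferentiableOn ℂ (deriv ((fun w => f.eval w)^[j])) univ :=
    (GEX_dif f j).differentiableOn.deriv isOpen_univ
  have h3 : HasDerivAt (deriv ((fun w => f.eval w)^[j])) (deriv (deriv ((fun w => f.eval w)^[j])) z) z :=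
    (h2.differentiableAt (isOpen_univ.mem_nhds (mem_univ z))).hasDerivAt
  have h5 : HasDerivAt (fun z => f.derivative.eval ((fun w => f.eval w)^[j] z))
      (f.derivative.derivative.eval ((fun w => f.eval w)^[j] z) * deriv ((fun w => f.eval w)^[j]) z) z :=
    (f.derivative.hasDerivAt ((fun w => f.eval w)^[j] z)).comp z h1
  have h4 := h5.mul h3
  rw [show (fun z => f.derivative.eval ((fun w => f.eval w)^[j] z) * deriv ((fun w => f.eval w)^[j]) z) =
    (fun z => f.derivative.eval ((fun w => f.eval w)^[j] z)) * deriv ((fun w => f.eval w)^[j]) from rfl]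
  rw [h4.deriv]
  ring

theorem GEX_cyc {k : ℕ} [NeZero k] (f : SE) (b : ZMod k → ℂ) (hc : YPPS.IsCyc f b) (j : ℕ)
    (l : ZMod k) : (fun w => f.eval w)^[j] (b l) = b (l + j) := by
  induction j with
  | zero => simp
  | succ j ih =>
    rw [Function.iterate_succ_apply', ih]
    show f.eval (b (l + j)) = _
    rw [hc.step]
    push_cast
    congr 1
    ring

theorem GEX_main {k : ℕ} [NeZero k] (f : SE) (b g : ZMod k → ℂ) (hc : YPPS.IsCyc f b)
    (he : YPPS.Exact f b g) (l : ZMod k) (j : ℕ) :
    deriv ((fun w => f.eval w)^[j]) (b l) ≠ 0 ∧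
    g (l + j) = g l / deriv ((fun w => f.eval w)^[j]) (b l) -
      deriv (deriv ((fun w => f.eval w)^[j])) (b l) / deriv ((fun w => f.eval w)^[j]) (b l) ^ 2 := by
  induction j with
  | zero =>
    have h0 : ((fun w => f.eval w)^[0]) = fun z => z := by funext z; simp
    rw [h0]
    have h1 : deriv (fun z : ℂ => z) = fun _ => (1 : ℂ) := by
      funext z; exact deriv_id z
    rw [h1]
    simp
  | succ j ih =>
    obtain ⟨ha, hg⟩ := ih
    have hQb : (fun w => f.eval w)^[j] (b l) = b (l + j) := GEX_cyc f b hc j l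
    have hA : deriv ((fun w => f.eval w)^[j + 1]) (b l) =
        YPPS.fd f (b (l + j)) * deriv ((fun w => f.eval w)^[j]) (b l) := by
      rw [GEX_succ]
      show f.derivative.eval ((fun w => f.eval w)^[j] (b l)) * _ = _
      rw [hQb]
      rfl
    have hC : deriv (deriv ((fun w => f.eval w)^[j + 1])) (b l) =
        YPPS.fdd f (b (l + j)) * deriv ((fun w => f.eval w)^[j]) (b l) ^ 2 +
          YPPS.fd f (b (l + j)) * deriv (deriv ((fun w => f.eval w)^[j])) (b l) := by
      rw [GEX_succ2, hQb]
      rfl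
    have hfd : YPPS.fd f (b (l + j)) ≠ 0 := hc.ne0 _
    refine ⟨by rw [hA]; exact mul_ne_zero hfd ha, ?_⟩
    have e1 : l + ((j + 1 : ℕ) : ZMod k) = (l + j) + 1 := by push_cast; ring
    rw [e1, he (l + j), hg, hA, hC]
    field_simp
    ring

end YV3S
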