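import Pool.Agent.helper61.CSW.Base
import Pool.Agent.helper61.CSW.PP.SpecA
import Pool.Agent.helper61.CSW.V3.SpecE
import Pool.Agent.helper61.CSW.Exports

set_option autoImplicit false

open Complex Metric Set Filter Topology MeasureTheory MPS YV3

open CSS (SE)

namespace YV3S

/-- derivative along a segment -/
theorem GZF_der (F : ℂ → ℂ) (hF : Differentiable ℂ F) (x₀ d : ℂ) (s : ℝ) :
    HasDerivAt (fun r : ℝ => F (x₀ + r * d)) (deriv F (x₀ + s * d) * d) s := by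
  have hFd : ∀ x, HasDerivAt F (deriv F x) x := fun x => (hF x).hasDerivAt
  have h1 : HasDerivAt (fun z : ℂ => x₀ + z * d) d (s : ℂ) := by
    simpa using ((hasDerivAt_id (s : ℂ)).mul_const d).const_add x₀
  exact (HasDerivAt.comp (s : ℂ) (hFd (x₀ + s * d)) h1).comp_ofReal

theorem GZF_sum (k : ℕ) (γ : ℕ → ℝ → ℂ) (q : ℕ → ℕ) (F : ℕ → ℂ → ℂ) (x₀ x₁ y₀ t : ℂ) (K : Set ℂ)
    (f g : ℂ → ℂ) (ε M : ℝ) (hε : ε ≤ 1) (hε0 : 0 ≤ ε) (_hM : 0 ≤ M)
    (hF : ∀ j, Differentiable ℂ (F j)) (hq : ∀ j, q j < k)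
    (h1 : ∀ j < k, ∀ s : ℝ, γ (2 * j) s = F (q j) (x₀ + s * (x₁ - x₀)))
    (h2 : ∀ j < k, (∀ s : ℝ, γ (2 * j + 1) s = F (q (j + 1)) x₀) ∨
      (∀ s : ℝ, γ (2 * j + 1) s = F (q (j + 1)) (y₀ + s * (x₀ - y₀))))
    (hK1 : ∀ s ∈ Icc (0 : ℝ) 1, x₀ + s * (x₁ - x₀) ∈ K)
    (hK2 : ∀ s ∈ Icc (0 : ℝ) 1, y₀ + s * (x₀ - y₀) ∈ K)
    (hK3 : ∀ s ∈ Icc (0 : ℝ) 1, x₀ + s * t ∈ K)
    (hfc : ∀ j < k, ContinuousOn (fun x => f (F j x) * deriv (F j) x) K)
    (hg : ContinuousOn g K)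
    (hfg : ∀ j < k, ∀ x ∈ K, ‖f (F j x) * deriv (F j) x - g x‖ ≤ ε)
    (hgu : ∀ s ∈ Icc (0 : ℝ) 1, ‖g (x₀ + s * (x₁ - x₀)) - g (x₀ + s * t)‖ ≤ ε)
    (hgM : ∀ x ∈ K, ‖g x‖ ≤ M) (ht : ‖x₁ - x₀ - t‖ ≤ ε) (hy : ‖x₀ - y₀‖ ≤ ε) :
    ‖chi (2 * k) γ f - k * ∫ s in (0 : ℝ)..1, g (x₀ + s * t) * t‖
      ≤ k * (ε * (2 * ‖t‖ + 2 * M + 3)) := by
  have hx1 : ‖x₁ - x₀‖ ≤ ‖t‖ + 1 := by
    calc ‖x₁ - x₀‖ = ‖(x₁ - x₀ - t) + t‖ := by congr 1; ring
      _ ≤ ‖x₁ - x₀ - t‖ + ‖t‖ := norm_add_le _ _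
      _ ≤ ‖t‖ + 1 := by linarith
  have huIcc : Set.uIcc (0 : ℝ) 1 = Icc 0 1 := Set.uIcc_of_le zero_le_one
  have hcont3 : ContinuousOn (fun s : ℝ => g (x₀ + s * t) * t) (Icc 0 1) :=
    ((hg.comp (by fun_prop) (fun s hs => hK3 s hs)).mul continuousOn_const)
  have hint3 : IntervalIntegrable (fun s : ℝ => g (x₀ + s * t) * t) volume 0 1 := by
    apply ContinuousOn.intervalIntegrable
    rw [huIcc]; exact hcont3
  -- even pieces
  have heven : ∀ j < k, ‖(∫ s in (0 : ℝ)..1, f (γ (2 * j) s) * derivWithin (γ (2 * j)) (Icc 0 1) s) -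
      ∫ s in (0 : ℝ)..1, g (x₀ + s * t) * t‖ ≤ ε * (2 * (‖t‖ + 1) + M) := by
    intro j hj
    have hγ : γ (2 * j) = fun s : ℝ => F (q j) (x₀ + s * (x₁ - x₀)) := funext (h1 j hj)
    have hder : ∀ s ∈ Icc (0 : ℝ) 1, derivWithin (γ (2 * j)) (Icc 0 1) s
        = deriv (F (q j)) (x₀ + s * (x₁ - x₀)) * (x₁ - x₀) := by
      intro s hs
      rw [hγ]
      exact (GZF_der (F (q j)) (hF (q j)) x₀ (x₁ - x₀) s).hasDerivWithinAt.derivWithin
        (uniqueDiffOn_Icc zero_lt_one s hs)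
    have hcongr : (∫ s in (0 : ℝ)..1, f (γ (2 * j) s) * derivWithin (γ (2 * j)) (Icc 0 1) s)
        = ∫ s in (0 : ℝ)..1, (f (F (q j) (x₀ + s * (x₁ - x₀))) *
          deriv (F (q j)) (x₀ + s * (x₁ - x₀))) * (x₁ - x₀) := by
      apply intervalIntegral.integral_congr
      intro s hs
      rw [huIcc] at hs
      simp only
      rw [hder s hs, h1 j hj s]
      ring
    have hcont : ContinuousOn (fun s : ℝ => (f (F (q j) (x₀ + s * (x₁ - x₀))) *
          deriv (F (q j)) (x₀ + s * (x₁ - x₀))) * (x₁ - x₀)) (Icc 0 1) :=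
      (((hfc (q j) (hq j)).comp (by fun_prop) (fun s hs => hK1 s hs)).mul continuousOn_const)
    have hint : IntervalIntegrable (fun s : ℝ => (f (F (q j) (x₀ + s * (x₁ - x₀))) *
          deriv (F (q j)) (x₀ + s * (x₁ - x₀))) * (x₁ - x₀)) volume 0 1 := by
      apply ContinuousOn.intervalIntegrable
      rw [huIcc]; exact hcont
    rw [hcongr, ← intervalIntegral.integral_sub hint hint3]
    have := intervalIntegral.norm_integral_le_of_norm_le_const (a := (0 : ℝ)) (b := 1)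
      (f := fun s : ℝ => (f (F (q j) (x₀ + s * (x₁ - x₀))) *
          deriv (F (q j)) (x₀ + s * (x₁ - x₀))) * (x₁ - x₀) - g (x₀ + s * t) * t)
      (C := ε * (2 * (‖t‖ + 1) + M)) ?_
    · simpa using this
    · intro s hs
      have hs' : s ∈ Icc (0 : ℝ) 1 := by
        rw [Set.uIoc_of_le zero_le_one] at hs
        exact ⟨hs.1.le, hs.2⟩
      have e1 := hfg (q j) (hq j) _ (hK1 s hs')
      have e2 := hgu s hs'
      have e3 := hgM _ (hK3 s hs')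
      calc ‖(f (F (q j) (x₀ + s * (x₁ - x₀))) * deriv (F (q j)) (x₀ + s * (x₁ - x₀))) * (x₁ - x₀)
            - g (x₀ + s * t) * t‖
          = ‖(f (F (q j) (x₀ + s * (x₁ - x₀))) * deriv (F (q j)) (x₀ + s * (x₁ - x₀))
                - g (x₀ + s * (x₁ - x₀))) * (x₁ - x₀)
              + (g (x₀ + s * (x₁ - x₀)) - g (x₀ + s * t)) * (x₁ - x₀)
              + g (x₀ + s * t) * (x₁ - x₀ - t)‖ := by congr 1; ring
        _ ≤ ‖(f (F (q j) (x₀ + s * (x₁ - x₀))) * deriv (F (q j)) (x₀ + s * (x₁ - x₀))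
                - g (x₀ + s * (x₁ - x₀))) * (x₁ - x₀)‖
              + ‖(g (x₀ + s * (x₁ - x₀)) - g (x₀ + s * t)) * (x₁ - x₀)‖
              + ‖g (x₀ + s * t) * (x₁ - x₀ - t)‖ := norm_add₃_le
        _ ≤ ε * (‖t‖ + 1) + ε * (‖t‖ + 1) + M * ε := by
            rw [norm_mul, norm_mul, norm_mul]
            gcongr
        _ = ε * (2 * (‖t‖ + 1) + M) := by ring
  -- odd pieces
  have hodd : ∀ j < k, ‖∫ s in (0 : ℝ)..1, f (γ (2 * j + 1) s) *
      derivWithin (γ (2 * j + 1)) (Icc 0 1) s‖ ≤ ε * (M + 1) := by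
    intro j hj
    rcases h2 j hj with h | h
    · have hγ : γ (2 * j + 1) = fun _ : ℝ => F (q (j + 1)) x₀ := funext h
      have : ∀ s : ℝ, derivWithin (γ (2 * j + 1)) (Icc 0 1) s = 0 := by
        intro s; rw [hγ]; simp
      simp only [this, mul_zero, intervalIntegral.integral_zero, norm_zero]
      positivity
    · have hγ : γ (2 * j + 1) = fun s : ℝ => F (q (j + 1)) (y₀ + s * (x₀ - y₀)) := funext h
      have hder : ∀ s ∈ Icc (0 : ℝ) 1, derivWithin (γ (2 * j + 1)) (Icc 0 1) s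
          = deriv (F (q (j + 1))) (y₀ + s * (x₀ - y₀)) * (x₀ - y₀) := by
        intro s hs
        rw [hγ]
        exact (GZF_der (F (q (j + 1))) (hF (q (j + 1))) y₀ (x₀ - y₀) s).hasDerivWithinAt.derivWithin
          (uniqueDiffOn_Icc zero_lt_one s hs)
      have := intervalIntegral.norm_integral_le_of_norm_le_const (a := (0 : ℝ)) (b := 1)
        (f := fun s : ℝ => f (γ (2 * j + 1) s) * derivWithin (γ (2 * j + 1)) (Icc 0 1) s)
        (C := ε * (M + 1)) ?_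
      · simpa using this
      · intro s hs
        have hs' : s ∈ Icc (0 : ℝ) 1 := by
          rw [Set.uIoc_of_le zero_le_one] at hs
          exact ⟨hs.1.le, hs.2⟩
        rw [hder s hs', h s, ← mul_assoc, norm_mul]
        have e1 := hfg (q (j + 1)) (hq (j + 1)) _ (hK2 s hs')
        have e3 := hgM _ (hK2 s hs')
        have e4 : ‖f (F (q (j + 1)) (y₀ + s * (x₀ - y₀))) *
            deriv (F (q (j + 1))) (y₀ + s * (x₀ - y₀))‖ ≤ M + 1 := by
          calc ‖f (F (q (j + 1)) (y₀ + s * (x₀ - y₀))) *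
              deriv (F (q (j + 1))) (y₀ + s * (x₀ - y₀))‖
              = ‖(f (F (q (j + 1)) (y₀ + s * (x₀ - y₀))) *
              deriv (F (q (j + 1))) (y₀ + s * (x₀ - y₀)) - g (y₀ + s * (x₀ - y₀))) +
                g (y₀ + s * (x₀ - y₀))‖ := by congr 1; ring
            _ ≤ _ := norm_add_le _ _
            _ ≤ ε + M := add_le_add e1 e3
            _ ≤ M + 1 := by linarith
        calc _ ≤ (M + 1) * ε := by gcongr
          _ = ε * (M + 1) := by ring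
  -- the sum
  unfold chi
  rw [GZF_pairs]
  have hk : (k : ℂ) * (∫ s in (0 : ℝ)..1, g (x₀ + s * t) * t)
      = ∑ _j ∈ Finset.range k, ∫ s in (0 : ℝ)..1, g (x₀ + s * t) * t := by
    rw [Finset.sum_const, Finset.card_range, nsmul_eq_mul]
  rw [hk, ← Finset.sum_sub_distrib]
  refine (norm_sum_le _ _).trans ?_
  have : ∀ j ∈ Finset.range k, ‖(∫ s in (0 : ℝ)..1, f (γ (2 * j) s) *
        derivWithin (γ (2 * j)) (Icc 0 1) s) +
      (∫ s in (0 : ℝ)..1, f (γ (2 * j + 1) s) * derivWithin (γ (2 * j + 1)) (Icc 0 1) s) -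
      ∫ s in (0 : ℝ)..1, g (x₀ + s * t) * t‖ ≤ ε * (2 * ‖t‖ + 2 * M + 3) := by
    intro j hj
    have hj' := Finset.mem_range.1 hj
    calc _ = ‖((∫ s in (0 : ℝ)..1, f (γ (2 * j) s) * derivWithin (γ (2 * j)) (Icc 0 1) s) -
          ∫ s in (0 : ℝ)..1, g (x₀ + s * t) * t) +
          ∫ s in (0 : ℝ)..1, f (γ (2 * j + 1) s) * derivWithin (γ (2 * j + 1)) (Icc 0 1) s‖ := by
            congr 1; ring
      _ ≤ _ := norm_add_le _ _
      _ ≤ ε * (2 * (‖t‖ + 1) + M) + ε * (M + 1) := add_le_add (heven j hj') (hodd j hj')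
      _ = ε * (2 * ‖t‖ + 2 * M + 3) := by ring
  refine (Finset.sum_le_sum this).trans ?_
  rw [Finset.sum_const, Finset.card_range, nsmul_eq_mul]

end YV3S
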