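import Pool.Agent.helper61.CSW.Base
import Pool.Agent.helper61.CSW.V3.SpecE
import Pool.Agent.helper61.CSW.V3.CHE
import Pool.Agent.helper61.CSW.V3.CHF
import Pool.Agent.helper61.CSW.V3.CHI
import Pool.Agent.helper61.CSW.V3.GZF
import Pool.Agent.helper61.CSW.V3.GEX
import Pool.Agent.helper61.CSW.PP.All
import Pool.Agent.helper61.CSW.Exports

/-! ef: chains of curves for entire functions: assembly. -/

set_option autoImplicit false

open CSS (SE)

namespace YV3A

theorem CHE_v : YV3.CHE_stmt := YV3.CHE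
theorem CHF_v : YV3.CHF_stmt := YV3.CHF CHE_v
theorem CHI_v : YV3.CHI_stmt := YV3.CHI CHE_v CHF_v

end YV3A
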